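import Mathlib

/-!
HP-REG (owner helper466): the regular points, in abstract form.
-/

set_option autoImplicit false

namespace Pool.Agent.H51.HP

open Complex MeasureTheory Set Filter Topology

/-- the assembly, for an arbitrary function `P` and an arbitrary predicate `CF` -/
theorem reg_core (P : ℂ → ℂ) (CF : ℝ → ℝ → ℝ → Prop) (Kt : ℝ → ℝ → ℝ → ℝ → Set ℂ)
    (hKt : ∀ t y0 x1 M : ℝ, Kt t y0 x1 M = {z | y0 ≤ z.re ∧ z.re ≤ x1 ∧ |z.im - t| ≤ M * z.re})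
    (h1 : ∀ M κ : ℝ, 1 ≤ M → 0 < κ → ∃ x1 : ℝ, 0 < x1 ∧ x1 ≤ 1 ∧ ∀ ε : ℝ, 0 < ε →
      ∃ A1 T0 : ℝ, 1 ≤ A1 ∧ 10 ≤ T0 ∧ ∀ T : ℝ, T0 ≤ T →
      volume {t : ℝ | t ∈ Icc T (2 * T) ∧ ¬ (CF t (A1 / Real.log T) M ∧
        ∀ z ∈ Kt t (A1 / Real.log T) x1 M, ∀ z' ∈ Kt t (A1 / Real.log T) x1 M,
          ‖P z - P z'‖ ≤ κ * Real.log T)} ≤ ENNReal.ofReal (ε * T))
    (h2 : ∀ x1 κ R ε : ℝ, 0 < x1 → 0 < κ → 0 < R → 0 < ε → ∃ T0 : ℝ, 10 ≤ T0 ∧ ∀ T : ℝ, T0 ≤ T →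
      volume {t : ℝ | t ∈ Icc T (2 * T) ∧ ∃ z : ℂ, x1 ≤ z.re ∧ z.re ≤ 4 ∧ |z.im - t| ≤ R ∧
        κ * Real.log T < ‖P z - (Real.log T / 2 : ℝ)‖} ≤ ENNReal.ofReal (ε * T))
    (M κ ε : ℝ) (hM : 1 ≤ M) (hκ : 0 < κ) (hε : 0 < ε) :
    ∃ A1 T0 : ℝ, 1 ≤ A1 ∧ 10 ≤ T0 ∧ ∀ T : ℝ, T0 ≤ T →
    volume {t : ℝ | t ∈ Icc T (2 * T) ∧ ¬ (CF t (A1 / Real.log T) M ∧
      ∀ z ∈ Kt t (A1 / Real.log T) 4 M, ‖P z - (Real.log T / 2 : ℝ)‖ ≤ κ * Real.log T)} ≤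
      ENNReal.ofReal (ε * T) := by
  obtain ⟨x1, hx1, hx1', hV⟩ := h1 M (κ / 2) hM (by positivity)
  obtain ⟨A1, T1, hA1, hT1, hV⟩ := hV (ε / 2) (by positivity)
  obtain ⟨T2, hT2, hN⟩ := h2 x1 (κ / 2) (4 * M) (ε / 2) hx1 (by positivity) (by linarith)
    (by positivity)
  refine ⟨A1, max (max T1 T2) (Real.exp (A1 / x1)), hA1,
    le_trans hT1 (le_trans (le_max_left _ _) (le_max_left _ _)), fun T hT => ?_⟩
  have hTa : T1 ≤ T := le_trans (le_trans (le_max_left _ _) (le_max_left _ _)) hT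
  have hTb : T2 ≤ T := le_trans (le_trans (le_max_right _ _) (le_max_left _ _)) hT
  have hTc : Real.exp (A1 / x1) ≤ T := le_trans (le_max_right _ _) hT
  have hT0 : 0 < T := lt_of_lt_of_le (Real.exp_pos _) hTc
  have hL : A1 / x1 ≤ Real.log T := (Real.le_log_iff_exp_le hT0).2 hTc
  have hL0 : 0 < Real.log T := lt_of_lt_of_le (div_pos (by linarith) hx1) hL
  have hy0 : A1 / Real.log T ≤ x1 := by
    rw [div_le_iff₀ hL0]
    rw [div_le_iff₀ hx1] at hL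
    linarith
  have hsub : {t : ℝ | t ∈ Icc T (2 * T) ∧ ¬ (CF t (A1 / Real.log T) M ∧
      ∀ z ∈ Kt t (A1 / Real.log T) 4 M, ‖P z - (Real.log T / 2 : ℝ)‖ ≤ κ * Real.log T)} ⊆
      {t : ℝ | t ∈ Icc T (2 * T) ∧ ¬ (CF t (A1 / Real.log T) M ∧
        ∀ z ∈ Kt t (A1 / Real.log T) x1 M, ∀ z' ∈ Kt t (A1 / Real.log T) x1 M,
          ‖P z - P z'‖ ≤ κ / 2 * Real.log T)} ∪
      {t : ℝ | t ∈ Icc T (2 * T) ∧ ∃ z : ℂ, x1 ≤ z.re ∧ z.re ≤ 4 ∧ |z.im - t| ≤ 4 * M ∧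
        κ / 2 * Real.log T < ‖P z - (Real.log T / 2 : ℝ)‖} := by
    rintro t ⟨ht, hbad⟩
    by_contra hcon
    rw [mem_union, not_or] at hcon
    obtain ⟨hc1, hc2⟩ := hcon
    have g1 : CF t (A1 / Real.log T) M ∧
        ∀ z ∈ Kt t (A1 / Real.log T) x1 M, ∀ z' ∈ Kt t (A1 / Real.log T) x1 M,
          ‖P z - P z'‖ ≤ κ / 2 * Real.log T := by
      by_contra h
      exact hc1 ⟨ht, h⟩
    have g2 : ∀ z : ℂ, x1 ≤ z.re → z.re ≤ 4 → |z.im - t| ≤ 4 * M →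
        ‖P z - (Real.log T / 2 : ℝ)‖ ≤ κ / 2 * Real.log T := by
      intro z a1 a2 a3
      by_contra h
      exact hc2 ⟨ht, z, a1, a2, a3, not_le.1 h⟩
    refine hbad ⟨g1.1, fun z hz => ?_⟩
    rw [hKt] at hz
    obtain ⟨z1, z2, z3⟩ := hz
    have hkl : κ / 2 * Real.log T ≤ κ * Real.log T := by
      have := mul_pos hκ hL0
      nlinarith
    rcases le_or_gt x1 z.re with h | h
    · refine (g2 z h z2 ?_).trans hkl
      refine z3.trans ?_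
      nlinarith
    · have hw : (⟨x1, t⟩ : ℂ) ∈ Kt t (A1 / Real.log T) x1 M := by
        rw [hKt]
        refine ⟨hy0, le_refl _, ?_⟩
        simp only [sub_self, abs_zero]
        positivity
      have hz' : z ∈ Kt t (A1 / Real.log T) x1 M := by
        rw [hKt]
        exact ⟨z1, h.le, z3⟩
      have e1 := g1.2 z hz' _ hw
      have e2 := g2 ⟨x1, t⟩ (le_refl _) (by show x1 ≤ 4; linarith)
        (by simp only [sub_self, abs_zero]; positivity)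
      calc ‖P z - (Real.log T / 2 : ℝ)‖
          = ‖(P z - P ⟨x1, t⟩) + (P ⟨x1, t⟩ - (Real.log T / 2 : ℝ))‖ := by
            rw [sub_add_sub_cancel]
        _ ≤ ‖P z - P ⟨x1, t⟩‖ + ‖P ⟨x1, t⟩ - (Real.log T / 2 : ℝ)‖ := norm_add_le _ _
        _ ≤ κ / 2 * Real.log T + κ / 2 * Real.log T := add_le_add e1 e2
        _ = κ * Real.log T := by ring
  refine (measure_mono hsub).trans ((measure_union_le _ _).trans ?_)
  refine (add_le_add (hV T hTa) (hN T hTb)).trans ?_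
  rw [← ENNReal.ofReal_add (by positivity) (by positivity)]
  apply le_of_eq
  congr 1
  ring

end Pool.Agent.H51.HP
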